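import Mathlib

/-!
# Abstract polytopes: definitions, flags, flag connectedness (for MP_c85533_co)

`rk` is the rank plus one.
-/

set_option autoImplicit false

open Set

namespace Pool.Agent.R231.MS

universe u

/-- `P` is an abstract polytope of rank `n`; `rk F` is the rank of `F` plus one. -/
structure IsPolytope (n : ℕ) (P : Type u) [PartialOrder P] [BoundedOrder P] (rk : P → ℕ) :
    Prop where
  bot : rk ⊥ = 0
  top : rk ⊤ = n + 1
  mono : StrictMono rk
  flags : ∀ C : Set P, IsMaxChain (· ≤ ·) C → C.encard = ((n + 2 : ℕ) : ℕ∞)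
  diamond : ∀ F G : P, F < G → rk G = rk F + 2 → {H : P | F < H ∧ H < G}.encard = 2
  conn : ∀ F G : P, F < G → rk F + 3 ≤ rk G → ∀ H H' : P, F < H → H < G → F < H' → H' < G →
    Relation.ReflTransGen (fun x y : P => (x ≤ y ∨ y ≤ x) ∧ (F < x ∧ x < G) ∧ F < y ∧ y < G) H H'

/-- The automorphism group is transitive on flags. -/
def Regular (P : Type u) [PartialOrder P] : Prop :=
  ∀ C D : Set P, IsMaxChain (· ≤ ·) C → IsMaxChain (· ≤ ·) D → ∃ φ : P ≃o P, φ '' C = D

/-- Isomorphic to the poset with the reversed order. -/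
def SelfDual (P : Type u) [PartialOrder P] : Prop := Nonempty (P ≃o Pᵒᵈ)

/-- `φ` maps the flag `C` to the flag which differs from `C` exactly in the `i`-face. -/
def Moves {P : Type u} [PartialOrder P] (rk : P → ℕ) (i : ℕ) (C : Set P) (φ : P ≃o P) : Prop :=
  φ '' C ≠ C ∧ ∀ x : P, rk x ≠ i + 1 → (x ∈ φ '' C ↔ x ∈ C)

/-- Regular, self-dual, and the group automorphism `ρᵢ ↦ ρₙ₋₁₋ᵢ` is inner. -/
def IntSelfDual (n : ℕ) (P : Type u) [PartialOrder P] (rk : P → ℕ) : Prop :=
  Regular P ∧ SelfDual P ∧ ∃ C : Set P, IsMaxChain (· ≤ ·) C ∧ ∃ ρ : ℕ → (P ≃o P),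
    (∀ i, i < n → Moves rk i C (ρ i)) ∧ ∃ α : P ≃o P, ∀ i, i < n → α * ρ i = ρ (n - 1 - i) * α

variable {n : ℕ} {P : Type u} [PartialOrder P] [BoundedOrder P] {rk : P → ℕ}

/-- flags as functions -/
structure Fl (n : ℕ) (f : ℕ → P) : Prop where
  lt : ∀ i, i ≤ n → f i < f (i + 1)
  top : ∀ i, n + 1 ≤ i → f i = ⊤

theorem Fl.add_le (hP : IsPolytope n P rk) {f : ℕ → P} (hf : Fl n f) (i : ℕ) :
    ∀ d, i + d ≤ n + 1 → rk (f i) + d ≤ rk (f (i + d)) := by
  intro d
  induction d with
  | zero => intro _; simp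
  | succ d ih =>
    intro h
    have h1 := ih (by omega)
    have h2 := hP.mono (hf.lt (i + d) (by omega))
    rw [← add_assoc, ← add_assoc]
    omega

theorem Fl.rk_eq (hP : IsPolytope n P rk) {f : ℕ → P} (hf : Fl n f) {i : ℕ} (hi : i ≤ n + 1) :
    rk (f i) = i := by
  have h1 := hf.add_le hP 0 i (by omega)
  have h2 := hf.add_le hP i (n + 1 - i) (by omega)
  have h3 : i + (n + 1 - i) = n + 1 := by omega
  rw [h3, hf.top _ le_rfl, hP.top] at h2
  rw [zero_add] at h1
  omega

theorem Fl.lt_lt {f : ℕ → P} (hf : Fl n f) (i : ℕ) : ∀ d, i + (d + 1) ≤ n + 1 →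
    f i < f (i + (d + 1)) := by
  intro d
  induction d with
  | zero => intro h; exact hf.lt i (by omega)
  | succ d ih =>
    intro h
    exact (ih (by omega)).trans (hf.lt (i + (d + 1)) (by omega))

theorem Fl.strict {f : ℕ → P} (hf : Fl n f) {i j : ℕ} (hij : i < j) (hj : j ≤ n + 1) :
    f i < f j := by
  obtain ⟨d, rfl⟩ : ∃ d, j = i + (d + 1) := ⟨j - i - 1, by omega⟩
  exact hf.lt_lt i d hj

theorem Fl.mono' {f : ℕ → P} (hf : Fl n f) {i j : ℕ} (hij : i ≤ j) : f i ≤ f j := by
  by_cases hj : j ≤ n + 1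
  · rcases hij.lt_or_eq with h | h
    · exact (hf.strict h hj).le
    · rw [h]
  · rw [hf.top j (by omega)]
    exact le_top

theorem rk_le (hP : IsPolytope n P rk) (x : P) : rk x ≤ n + 1 := by
  rw [← hP.top]
  exact hP.mono.monotone le_top

theorem eq_of_chain (hP : IsPolytope n P rk) {C : Set P} (hC : IsChain (· ≤ ·) C) {x y : P}
    (hx : x ∈ C) (hy : y ∈ C) (h : rk x = rk y) : x = y := by
  by_contra hne
  rcases hC hx hy hne with h1 | h1
  · have := hP.mono (lt_of_le_of_ne h1 hne)
    omega
  · have := hP.mono (lt_of_le_of_ne h1 (Ne.symm hne))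
    omega

theorem lt_of_chain (hP : IsPolytope n P rk) {C : Set P} (hC : IsChain (· ≤ ·) C) {x y : P}
    (hx : x ∈ C) (hy : y ∈ C) (h : rk x < rk y) : x < y := by
  have hne : x ≠ y := by rintro rfl; exact lt_irrefl _ h
  rcases hC hx hy hne with h1 | h1
  · exact lt_of_le_of_ne h1 hne
  · have := hP.mono (lt_of_le_of_ne h1 (Ne.symm hne))
    omega

/-- every maximal chain is the range of a flag function -/
theorem exists_fl (hP : IsPolytope n P rk) {C : Set P} (hC : IsMaxChain (· ≤ ·) C) :
    ∃ f : ℕ → P, Fl n f ∧ range f = C := by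
  have hcard := hP.flags C hC
  have hinj : InjOn rk C := fun x hx y hy h => eq_of_chain hP hC.1 hx hy h
  have himg : rk '' C = (Finset.range (n + 2) : Set ℕ) := by
    have h1 : rk '' C ⊆ (Finset.range (n + 2) : Set ℕ) := by
      rintro _ ⟨x, _, rfl⟩
      rw [Finset.mem_coe, Finset.mem_range]
      have := rk_le hP x
      omega
    refine ((Finset.finite_toSet _).subset h1).eq_of_subset_of_encard_le h1 ?_
    rw [hinj.encard_image, hcard, encard_coe_eq_coe_finsetCard, Finset.card_range]
  have hex : ∀ i, i ≤ n + 1 → ∃ x ∈ C, rk x = i := by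
    intro i hi
    have : i ∈ rk '' C := by
      rw [himg, Finset.mem_coe, Finset.mem_range]
      omega
    obtain ⟨x, hx, hx'⟩ := this
    exact ⟨x, hx, hx'⟩
  choose! g hg1 hg2 using hex
  refine ⟨fun i => if i ≤ n then g i else ⊤, ⟨?_, ?_⟩, ?_⟩
  · intro i hi
    change (if i ≤ n then g i else ⊤) < (if i + 1 ≤ n then g (i + 1) else ⊤)
    rw [if_pos hi]
    by_cases h : i + 1 ≤ n
    · rw [if_pos h]
      refine lt_of_chain hP hC.1 (hg1 i (by omega)) (hg1 (i + 1) (by omega)) ?_
      rw [hg2 i (by omega), hg2 (i + 1) (by omega)]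
      omega
    · rw [if_neg h, lt_top_iff_ne_top]
      intro h1
      have := hg2 i (by omega)
      rw [h1, hP.top] at this
      omega
  · intro i hi
    change (if i ≤ n then g i else ⊤) = ⊤
    rw [if_neg (by omega)]
  · have htopC : (⊤ : P) ∈ C := by
      obtain h1 := hg1 (n + 1) le_rfl
      have h2 := hg2 (n + 1) le_rfl
      have h3 : g (n + 1) = ⊤ := by
        by_contra hne
        have := hP.mono (lt_top_iff_ne_top.2 hne)
        rw [hP.top] at this
        omega
      rwa [← h3]
    apply Subset.antisymm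
    · rintro _ ⟨i, rfl⟩
      change (if i ≤ n then g i else ⊤) ∈ C
      split_ifs with h
      · exact hg1 i (by omega)
      · exact htopC
    · intro x hx
      have h1 := rk_le hP x
      by_cases h : rk x ≤ n
      · refine ⟨rk x, ?_⟩
        change (if rk x ≤ n then g (rk x) else ⊤) = x
        rw [if_pos h]
        exact eq_of_chain hP hC.1 (hg1 _ (by omega)) hx (hg2 _ (by omega))
      · refine ⟨n + 1, ?_⟩
        change (if n + 1 ≤ n then g (n + 1) else ⊤) = x
        rw [if_neg (by omega)]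
        refine eq_of_chain hP hC.1 htopC hx ?_
        rw [hP.top]
        omega

theorem fl_isChain {f : ℕ → P} (hf : Fl n f) : IsChain (· ≤ ·) (range f) := by
  rintro _ ⟨i, rfl⟩ _ ⟨j, rfl⟩ _
  rcases le_total i j with h | h
  · exact Or.inl (hf.mono' h)
  · exact Or.inr (hf.mono' h)

theorem fl_isMaxChain (hP : IsPolytope n P rk) {f : ℕ → P} (hf : Fl n f) :
    IsMaxChain (· ≤ ·) (range f) := by
  refine ⟨fl_isChain hf, fun D hD hsub => Subset.antisymm hsub fun x hx => ?_⟩
  have h1 := rk_le hP x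
  refine ⟨rk x, ?_⟩
  exact eq_of_chain hP hD (hsub ⟨rk x, rfl⟩) hx (hf.rk_eq hP h1)

/-- every chain is contained in a flag -/
theorem exists_fl_chain (hP : IsPolytope n P rk) {C : Set P} (hC : IsChain (· ≤ ·) C) :
    ∃ f : ℕ → P, Fl n f ∧ ∀ x ∈ C, f (rk x) = x := by
  obtain ⟨M, hM, hCM⟩ := hC.exists_maxChain
  obtain ⟨f, hf, hr⟩ := exists_fl hP hM
  refine ⟨f, hf, fun x hx => ?_⟩
  refine eq_of_chain hP hM.1 (hr ▸ ⟨_, rfl⟩) (hCM hx) (hf.rk_eq hP (rk_le hP x))

theorem Fl.comp {f : ℕ → P} (hf : Fl n f) (φ : P ≃o P) : Fl n (fun i => φ (f i)) :=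
  ⟨fun i hi => φ.lt_iff_lt.2 (hf.lt i hi), fun i hi => by
    change φ (f i) = ⊤
    rw [hf.top i hi, map_top]⟩

/-- automorphisms preserve the rank -/
theorem rk_auto (hP : IsPolytope n P rk) (φ : P ≃o P) (x : P) : rk (φ x) = rk x := by
  obtain ⟨f, hf, hx⟩ := exists_fl_chain hP (C := {x}) (IsChain.singleton)
  have h1 := (hf.comp φ).rk_eq hP (rk_le hP x)
  rw [hx x rfl] at h1
  exact h1

theorem Fl.zero (hP : IsPolytope n P rk) {f : ℕ → P} (hf : Fl n f) : f 0 = ⊥ := by
  by_contra hne
  have h1 := hP.mono (bot_lt_iff_ne_bot.2 hne)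
  have h2 := hf.rk_eq hP (Nat.zero_le (n + 1))
  rw [hP.bot] at h1
  omega

/-- gluing two flags -/
theorem Fl.glue {f g : ℕ → P} (hf : Fl n f) (hg : Fl n g) {r : ℕ} (hr : f r = g r) :
    Fl n (fun k => if k ≤ r then f k else g k) := by
  refine ⟨fun i hi => ?_, fun i hi => ?_⟩
  · change (if i ≤ r then f i else g i) < (if i + 1 ≤ r then f (i + 1) else g (i + 1))
    by_cases h1 : i + 1 ≤ r
    · rw [if_pos h1, if_pos (by omega)]
      exact hf.lt i hi
    · rw [if_neg h1]
      by_cases h2 : i ≤ r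
      · have h3 : i = r := by omega
        rw [if_pos h2, h3, hr, ← h3]
        exact hg.lt i hi
      · rw [if_neg h2]
        exact hg.lt i hi
  · change (if i ≤ r then f i else g i) = ⊤
    split_ifs
    · exact hf.top i hi
    · exact hg.top i hi

/-- replacing one face of a flag -/
theorem Fl.upd {f : ℕ → P} (hf : Fl n f) {i : ℕ} (hi : 1 ≤ i) (hin : i ≤ n) {x : P}
    (h1 : f (i - 1) < x) (h2 : x < f (i + 1)) : Fl n (Function.update f i x) := by
  refine ⟨fun k hk => ?_, fun k hk => ?_⟩
  · by_cases hki : k = i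
    · subst hki
      rw [Function.update_self, Function.update_of_ne (by omega)]
      exact h2
    · rw [Function.update_of_ne hki]
      by_cases hki' : k + 1 = i
      · rw [hki', Function.update_self]
        have : k = i - 1 := by omega
        rw [this]
        exact h1
      · rw [Function.update_of_ne hki']
        exact hf.lt k hk
  · rw [Function.update_of_ne (by omega)]
    exact hf.top k hk

/-- `g` differs from `f` exactly at `i` -/
def AdjF (i : ℕ) (f g : ℕ → P) : Prop := (∀ k, k ≠ i → g k = f k) ∧ g i ≠ f i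

theorem adj_unique (hP : IsPolytope n P rk) {f g g' : ℕ → P} (hf : Fl n f) (hg : Fl n g)
    (hg' : Fl n g') {i : ℕ} (hi : 1 ≤ i) (hin : i ≤ n) (h : AdjF i f g) (h' : AdjF i f g') :
    g = g' := by
  have hlt : f (i - 1) < f (i + 1) := hf.strict (by omega) (by omega)
  have hd := hP.diamond _ _ hlt (by
    rw [hf.rk_eq hP (by omega), hf.rk_eq hP (by omega)]
    omega)
  obtain ⟨a, b, hab, hs⟩ := encard_eq_two.1 hd
  have hmem : ∀ g : ℕ → P, Fl n g → (∀ k, k ≠ i → g k = f k) → g i ∈ ({a, b} : Set P) := by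
    intro g hg hgk
    rw [← hs]
    refine ⟨?_, ?_⟩
    · rw [← hgk (i - 1) (by omega)]
      exact hg.strict (by omega) (by omega)
    · rw [← hgk (i + 1) (by omega)]
      exact hg.strict (by omega) (by omega)
  have m1 := hmem f hf (fun _ _ => rfl)
  have m2 := hmem g hg h.1
  have m3 := hmem g' hg' h'.1
  have e1 := h.2
  have e2 := h'.2
  have e3 : g i = g' i := by
    simp only [mem_insert_iff, mem_singleton_iff] at m1 m2 m3
    rcases m1 with m1 | m1 <;> rcases m2 with m2 | m2 <;> rcases m3 with m3 | m3 <;>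
      simp_all
  ext1 k
  by_cases hk : k = i
  · rw [hk]; exact e3
  · rw [h.1 k hk, h'.1 k hk]

/-- the step relation between flags -/
def Step (n : ℕ) (f g : ℕ → P) : Prop :=
  Fl n f ∧ Fl n g ∧ ∃ i, 1 ≤ i ∧ i ≤ n ∧ AdjF i f g

/-- flag connectedness, relative version -/
theorem flag_conn_aux (hP : IsPolytope n P rk) (d : ℕ) : ∀ i j : ℕ, j = i + d → j ≤ n + 1 →
    ∀ f g : ℕ → P, Fl n f → Fl n g → (∀ k, k ≤ i ∨ j ≤ k → f k = g k) →
    Relation.ReflTransGen (Step n) f g := by
  induction d using Nat.strong_induction_on with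
  | _ d ih =>
    intro i j hj hjn f g hf hg hfg
    by_cases hd1 : d ≤ 1
    · have : f = g := by
        ext1 k
        exact hfg k (by omega)
      rw [this]
    by_cases hd2 : d = 2
    · by_cases heq : f (i + 1) = g (i + 1)
      · have : f = g := by
          ext1 k
          by_cases hk : k = i + 1
          · rw [hk]; exact heq
          · exact hfg k (by omega)
        rw [this]
      · refine Relation.ReflTransGen.single ⟨hf, hg, i + 1, by omega, by omega, ?_, ?_⟩
        · intro k hk
          exact (hfg k (by omega)).symm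
        · exact fun h => heq h.symm
    have hd3 : 3 ≤ d := by omega
    -- flags sharing a face inside
    have L1 : ∀ f' g' : ℕ → P, Fl n f' → Fl n g' → (∀ k, k ≤ i ∨ j ≤ k → f' k = g' k) →
        ∀ r, i < r → r < j → f' r = g' r → Relation.ReflTransGen (Step n) f' g' := by
      intro f' g' hf' hg' hfg' r hir hrj hr
      have hm := hf'.glue hg' hr
      refine Relation.ReflTransGen.trans
        (ih (j - r) (by omega) r j (by omega) hjn f' _ hf' hm ?_)
        (ih (r - i) (by omega) i r (by omega) (by omega) _ g' hm hg' ?_)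
      · intro k hk
        change f' k = if k ≤ r then f' k else g' k
        by_cases hkr : k ≤ r
        · rw [if_pos hkr]
        · rw [if_neg hkr]
          exact hfg' k (by omega)
      · intro k hk
        change (if k ≤ r then f' k else g' k) = g' k
        by_cases hkr : k ≤ r
        · rw [if_pos hkr]
          rcases hk with hk | hk
          · exact hfg' k (Or.inl hk)
          · have : k = r := by omega
            rw [this]; exact hr
        · rw [if_neg hkr]
    have hltij : f i < f j := hf.strict (by omega) hjn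
    have hrki : rk (f i) = i := hf.rk_eq hP (by omega)
    have hrkj : rk (f j) = j := hf.rk_eq hP hjn
    -- a flag through two incident faces
    have L2 : ∀ x y : P, (x ≤ y ∨ y ≤ x) → f i < x → x < f j → f i < y → y < f j →
        ∃ h : ℕ → P, Fl n h ∧ (∀ k, k ≤ i ∨ j ≤ k → h k = f k) ∧ h (rk x) = x ∧ h (rk y) = y := by
      intro x y hxy hx1 hx2 hy1 hy2
      have hch : IsChain (· ≤ ·) ({z | ∃ k, (k ≤ i ∨ j ≤ k) ∧ z = f k} ∪ {x, y} : Set P) := by
        have key : ∀ z, (z = x ∨ z = y) → ∀ k, (k ≤ i ∨ j ≤ k) → z ≤ f k ∨ f k ≤ z := by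
          intro z hz k hk
          have hz1 : f i < z := by rcases hz with rfl | rfl <;> assumption
          have hz2 : z < f j := by rcases hz with rfl | rfl <;> assumption
          rcases hk with hk | hk
          · exact Or.inr ((hf.mono' hk).trans hz1.le)
          · exact Or.inl (hz2.le.trans (hf.mono' hk))
        rintro a (⟨k, hk, rfl⟩ | ha) b (⟨l, hl, rfl⟩ | hb) hab
        · rcases le_total k l with h | h
          · exact Or.inl (hf.mono' h)
          · exact Or.inr (hf.mono' h)
        · have := key b (by simpa using hb) k hk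
          exact this.symm
        · exact key a (by simpa using ha) l hl
        · simp only [mem_insert_iff, mem_singleton_iff] at ha hb
          rcases ha with rfl | rfl <;> rcases hb with rfl | rfl
          · exact absurd rfl hab
          · exact hxy
          · exact hxy.symm
          · exact absurd rfl hab
      obtain ⟨h, hh, hmem⟩ := exists_fl_chain hP hch
      refine ⟨h, hh, fun k hk => ?_, hmem x (Or.inr (by simp)), hmem y (Or.inr (by simp))⟩
      by_cases hkn : k ≤ n + 1
      · have h1 := hmem (f k) (Or.inl ⟨k, hk, rfl⟩)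
        rwa [hf.rk_eq hP hkn] at h1
      · rw [hh.top k (by omega), hf.top k (by omega)]
    have hrng : ∀ x : P, f i < x → x < f j → i < rk x ∧ rk x < j := by
      intro x h1 h2
      have e1 := hP.mono h1
      have e2 := hP.mono h2
      omega
    -- along a path of incident faces
    have L3 : ∀ x y : P, Relation.ReflTransGen (fun x y : P => (x ≤ y ∨ y ≤ x) ∧
        (f i < x ∧ x < f j) ∧ f i < y ∧ y < f j) x y → f i < x → x < f j →
        ∀ f' g' : ℕ → P, Fl n f' → Fl n g' → (∀ k, k ≤ i ∨ j ≤ k → f' k = f k) →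
        (∀ k, k ≤ i ∨ j ≤ k → g' k = f k) → f' (rk x) = x → g' (rk y) = y →
        Relation.ReflTransGen (Step n) f' g' := by
      intro x y hpath hx1 hx2
      induction hpath with
      | refl =>
        intro f' g' hf' hg' e1 e2 e3 e4
        obtain ⟨h1, h2⟩ := hrng x hx1 hx2
        exact L1 f' g' hf' hg' (fun k hk => by rw [e1 k hk, e2 k hk]) (rk x) h1 h2
          (by rw [e3, e4])
      | @tail y z _ hyz ihp =>
        intro f' g' hf' hg' e1 e2 e3 e4
        obtain ⟨hinc, ⟨hy1, hy2⟩, hz1, hz2⟩ := hyz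
        obtain ⟨h, hh, k1, k2, k3⟩ := L2 y z hinc hy1 hy2 hz1 hz2
        refine (ihp f' h hf' hh e1 k1 e3 k2).trans ?_
        obtain ⟨h1, h2⟩ := hrng z hz1 hz2
        exact L1 h g' hh hg' (fun k hk => by rw [k1 k hk, e2 k hk]) (rk z) h1 h2
          (by rw [k3, e4])
    have hx1 : f i < f (i + 1) := hf.strict (by omega) (by omega)
    have hx2 : f (i + 1) < f j := hf.strict (by omega) hjn
    have hy1 : f i < g (i + 1) := by
      rw [hfg i (Or.inl le_rfl)]
      exact hg.strict (by omega) (by omega)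
    have hy2 : g (i + 1) < f j := by
      rw [hfg j (Or.inr le_rfl)]
      exact hg.strict (by omega) hjn
    refine L3 (f (i + 1)) (g (i + 1)) (hP.conn _ _ hltij (by omega) _ _ hx1 hx2 hy1 hy2) hx1 hx2
      f g hf hg (fun _ _ => rfl) (fun k hk => (hfg k hk).symm) ?_ ?_
    · rw [hf.rk_eq hP (by omega)]
    · rw [hg.rk_eq hP (by omega)]

/-- any two flags are connected by adjacent flags -/
theorem flag_conn (hP : IsPolytope n P rk) {f g : ℕ → P} (hf : Fl n f) (hg : Fl n g) :
    Relation.ReflTransGen (Step n) f g := by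
  refine flag_conn_aux hP (n + 1) 0 (n + 1) (by omega) le_rfl f g hf hg fun k hk => ?_
  rcases hk with hk | hk
  · have : k = 0 := by omega
    rw [this, hf.zero hP, hg.zero hP]
  · rw [hf.top k hk, hg.top k hk]

theorem AdjF.comp {i : ℕ} {f g : ℕ → P} (h : AdjF i f g) (φ : P ≃o P) :
    AdjF i (fun k => φ (f k)) (fun k => φ (g k)) :=
  ⟨fun k hk => congrArg φ (h.1 k hk), fun hh => h.2 (φ.injective hh)⟩

/-- an automorphism fixing a flag is trivial -/
theorem rigid (hP : IsPolytope n P rk) {f : ℕ → P} (hf : Fl n f) (φ : P ≃o P)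
    (h : ∀ k, φ (f k) = f k) (x : P) : φ x = x := by
  obtain ⟨g, hg, hx⟩ := exists_fl_chain hP (C := {x}) (IsChain.singleton)
  have key : ∀ g : ℕ → P, Relation.ReflTransGen (Step n) f g → ∀ k, φ (g k) = g k := by
    intro g hfg
    induction hfg with
    | refl => exact h
    | @tail g g' _ hstep ihg =>
      obtain ⟨hg, hg', i, hi, hin, hadj⟩ := hstep
      have h1 : AdjF i g (fun k => φ (g' k)) := by
        have := hadj.comp φ
        have e : (fun k => φ (g k)) = g := funext ihg
        rwa [e] at this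
      have h2 := adj_unique hP hg (hg'.comp φ) hg' hi hin h1 hadj
      intro k
      exact congrFun h2 k
  have := key g (flag_conn hP hf hg) (rk x)
  rwa [hx x rfl] at this

end Pool.Agent.R231.MS
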