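import Pool.Agent.R231.MS.Neg

/-!
# The regular self-dual polytopes {2, ..., 2} and the final theorem
-/

set_option autoImplicit false

open Set

namespace Pool.Agent.R231.MS

universe u

/-- The faces of the polytope `{2, ..., 2}` of rank `m`: two faces of each rank `0, ..., m - 1`,
and the least and the greatest face; the first component is the rank plus one. -/
def KK (m : ℕ) : Type :=
  {x : ℕ × Bool // x.1 ≤ m + 1 ∧ ((x.1 = 0 ∨ x.1 = m + 1) → x.2 = false)}

namespace KK

variable {m : ℕ}

/-- rank plus one -/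
def rkK (x : KK m) : ℕ := x.1.1

/-- Two different faces are incident iff their ranks are different. -/
instance : PartialOrder (KK m) where
  le x y := x = y ∨ x.1.1 < y.1.1
  le_refl x := Or.inl rfl
  le_trans x y z h1 h2 := by
    rcases h1 with rfl | h1
    · exact h2
    · rcases h2 with rfl | h2
      · exact Or.inr h1
      · exact Or.inr (h1.trans h2)
  le_antisymm x y h1 h2 := by
    rcases h1 with h1 | h1
    · exact h1
    · rcases h2 with h2 | h2
      · exact h2.symm
      · exact absurd (h1.trans h2) (lt_irrefl _)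

theorem le_iff (x y : KK m) : x ≤ y ↔ x = y ∨ rkK x < rkK y := Iff.rfl

theorem lt_iff (x y : KK m) : x < y ↔ rkK x < rkK y := by
  rw [lt_iff_le_not_ge, le_iff, le_iff]
  constructor
  · rintro ⟨h1 | h1, h2⟩
    · exact absurd (Or.inl h1.symm) h2
    · exact h1
  · intro h
    refine ⟨Or.inr h, ?_⟩
    rintro (h1 | h1)
    · rw [h1] at h
      exact lt_irrefl _ h
    · exact absurd (h.trans h1) (lt_irrefl _)

/-- a face of given rank -/
def mk' (i : ℕ) (b : Bool) (h1 : i ≤ m + 1) (h2 : (i = 0 ∨ i = m + 1) → b = false) : KK m :=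
  ⟨(i, b), h1, h2⟩

instance : BoundedOrder (KK m) where
  bot := ⟨(0, false), by simp, fun _ => rfl⟩
  top := ⟨(m + 1, false), by simp, fun _ => rfl⟩
  bot_le x := by
    rcases Nat.eq_zero_or_pos x.1.1 with h | h
    · left
      have h2 := x.2.2 (Or.inl h)
      exact Subtype.ext (Prod.ext h.symm h2.symm)
    · exact Or.inr h
  le_top x := by
    rcases x.2.1.lt_or_eq with h | h
    · exact Or.inr h
    · left
      have h2 := x.2.2 (Or.inr h)
      exact Subtype.ext (Prod.ext h h2)

theorem rk_le (x : KK m) : rkK x ≤ m + 1 := x.2.1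

theorem isPolytope (m : ℕ) : IsPolytope m (KK m) rkK where
  bot := rfl
  top := rfl
  mono x y h := (lt_iff x y).1 h
  flags := by
    intro C hC
    have hinj : InjOn rkK C := by
      intro x hx y hy h
      by_contra hne
      rcases hC.1 hx hy hne with h1 | h1
      · have := (lt_iff _ _).1 (lt_of_le_of_ne h1 hne)
        omega
      · have := (lt_iff _ _).1 (lt_of_le_of_ne h1 (Ne.symm hne))
        omega
    have himg : rkK '' C = (Finset.range (m + 2) : Set ℕ) := by
      apply Subset.antisymm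
      · rintro _ ⟨x, _, rfl⟩
        rw [Finset.mem_coe, Finset.mem_range]
        have := rk_le x
        omega
      · intro i hi
        rw [Finset.mem_coe, Finset.mem_range] at hi
        by_contra hcon
        have hne : ∀ x ∈ C, rkK x ≠ i := fun x hx h => hcon ⟨x, hx, h⟩
        obtain ⟨y, hy⟩ : ∃ y : KK m, rkK y = i :=
          ⟨mk' i false (by omega) (fun _ => rfl), rfl⟩
        have hch : IsChain (· ≤ ·) (insert y C) := by
          refine hC.1.insert fun x hx _ => ?_
          rcases lt_or_gt_of_ne (hne x hx) with h | h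
          · exact Or.inr (Or.inr (by rw [← hy] at h; exact h))
          · exact Or.inl (Or.inr (by rw [← hy] at h; exact h))
        have h1 := hC.2 hch (subset_insert y C)
        have h2 : y ∈ C := by
          rw [h1]
          exact mem_insert y C
        exact hne y h2 hy
    rw [← hinj.encard_image, himg, encard_coe_eq_coe_finsetCard, Finset.card_range]
  diamond := by
    intro F G hFG hG
    have hGle := rk_le G
    have hset : {H : KK m | F < H ∧ H < G} =
        {mk' (rkK F + 1) false (by omega) (fun _ => rfl),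
         mk' (rkK F + 1) true (by omega) (fun h => by omega)} := by
      ext H
      simp only [mem_ofPred_eq, mem_insert_iff, mem_singleton_iff, lt_iff]
      constructor
      · rintro ⟨h1, h2⟩
        have h3 : rkK H = rkK F + 1 := by omega
        cases hb : H.1.2
        · left
          exact Subtype.ext (Prod.ext h3 hb)
        · right
          exact Subtype.ext (Prod.ext h3 hb)
      · rintro (rfl | rfl)
        · change rkK F < rkK F + 1 ∧ rkK F + 1 < rkK G
          omega
        · change rkK F < rkK F + 1 ∧ rkK F + 1 < rkK G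
          omega
    rw [hset]
    refine encard_pair fun h => ?_
    have := congrArg (fun x : KK m => x.1.2) h
    exact absurd this (by simp [mk'])
  conn := by
    intro F G hFG hd H H' h1 h2 h3 h4
    have hGle := rk_le G
    by_cases hne : rkK H = rkK H'
    · obtain ⟨t, ht1, ht2, ht3⟩ : ∃ t, rkK F < t ∧ t < rkK G ∧ t ≠ rkK H := by
        by_cases h : rkK H = rkK F + 1
        · exact ⟨rkK F + 2, by omega, by omega, by omega⟩
        · exact ⟨rkK F + 1, by omega, by omega, by omega⟩
      obtain ⟨M, hM⟩ : ∃ M : KK m, rkK M = t := ⟨mk' t false (by omega) (fun _ => rfl), rfl⟩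
      have hM1 : F < M := (lt_iff _ _).2 (by omega)
      have hM2 : M < G := (lt_iff _ _).2 (by omega)
      have s1 : H ≤ M ∨ M ≤ H := by
        rcases lt_or_gt_of_ne ht3 with h | h
        · exact Or.inr (Or.inr (show rkK M < rkK H by omega))
        · exact Or.inl (Or.inr (show rkK H < rkK M by omega))
      have s2 : M ≤ H' ∨ H' ≤ M := by
        rcases lt_or_gt_of_ne ht3 with h | h
        · exact Or.inl (Or.inr (show rkK M < rkK H' by omega))
        · exact Or.inr (Or.inr (show rkK H' < rkK M by omega))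
      exact (Relation.ReflTransGen.single ⟨s1, ⟨h1, h2⟩, hM1, hM2⟩).tail
        ⟨s2, ⟨hM1, hM2⟩, h3, h4⟩
    · refine Relation.ReflTransGen.single ⟨?_, ⟨h1, h2⟩, h3, h4⟩
      rcases lt_or_gt_of_ne hne with h | h
      · exact Or.inl (Or.inr h)
      · exact Or.inr (Or.inr h)

/-- an involution of `KK m` preserving the rank -/
theorem exists_iso (φ : KK m → KK m) (h1 : ∀ x, rkK (φ x) = rkK x) (h2 : ∀ x, φ (φ x) = x) :
    ∃ ψ : KK m ≃o KK m, ∀ x, ψ x = φ x := by
  refine ⟨{ toEquiv := Function.Involutive.toPerm φ h2, map_rel_iff' := ?_ }, fun x => rfl⟩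
  intro x y
  change φ x ≤ φ y ↔ x ≤ y
  rw [le_iff, le_iff, h1, h1]
  constructor
  · rintro (h | h)
    · left
      rw [← h2 x, h, h2]
    · exact Or.inr h
  · rintro (h | h)
    · left; rw [h]
    · exact Or.inr h

theorem regular (m : ℕ) : Regular (KK m) := by
  intro C D hC hD
  obtain ⟨f, hf, rfl⟩ := exists_fl (isPolytope m) hC
  obtain ⟨g, hg, rfl⟩ := exists_fl (isPolytope m) hD
  have hb : ∀ f : ℕ → KK m, Fl m f → ∀ i, (i = 0 ∨ i = m + 1) → (f i).1.2 = false := by
    intro f hf i hi
    have h1 := hf.rk_eq (isPolytope m) (show i ≤ m + 1 by omega)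
    refine (f i).2.2 ?_
    change rkK (f i) = 0 ∨ rkK (f i) = m + 1
    omega
  obtain ⟨ψ, hψ⟩ := exists_iso
    (fun x : KK m => (⟨(x.1.1, xor x.1.2 (xor (f x.1.1).1.2 (g x.1.1).1.2)), x.2.1, fun h => by
      have e1 := x.2.2 h
      have e2 := hb f hf _ h
      have e3 := hb g hg _ h
      change xor x.1.2 (xor (f x.1.1).1.2 (g x.1.1).1.2) = false
      rw [e1, e2, e3]
      rfl⟩ : KK m)) (fun x => rfl) (fun x => by
        refine Subtype.ext (Prod.ext rfl ?_)
        change xor (xor x.1.2 (xor (f x.1.1).1.2 (g x.1.1).1.2))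
          (xor (f x.1.1).1.2 (g x.1.1).1.2) = x.1.2
        rw [Bool.xor_assoc, Bool.xor_self, Bool.xor_false])
  have hfg : ∀ i, ψ (f i) = g i := by
    intro i
    by_cases hi : i ≤ m + 1
    · rw [hψ]
      have e1 : (f i).1.1 = i := hf.rk_eq (isPolytope m) hi
      have e2 : (g i).1.1 = i := hg.rk_eq (isPolytope m) hi
      refine Subtype.ext (Prod.ext ?_ ?_)
      · change (f i).1.1 = (g i).1.1
        rw [e1, e2]
      · change xor (f i).1.2 (xor (f (f i).1.1).1.2 (g (f i).1.1).1.2) = (g i).1.2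
        rw [e1, ← Bool.xor_assoc, Bool.xor_self, Bool.false_xor]
    · rw [hf.top i (by omega), hg.top i (by omega), map_top]
  refine ⟨ψ, ?_⟩
  rw [← range_comp]
  congr 1
  ext1 i
  exact hfg i

theorem selfDual (m : ℕ) : SelfDual (KK m) := by
  let φ : KK m → KK m := fun x => ⟨(m + 1 - x.1.1, x.1.2), by
    change m + 1 - x.1.1 ≤ m + 1
    omega, fun h => by
    refine x.2.2 ?_
    have h1 := x.2.1
    change m + 1 - x.1.1 = 0 ∨ m + 1 - x.1.1 = m + 1 at h
    omega⟩
  have hr : ∀ x, rkK (φ x) = m + 1 - rkK x := fun x => rfl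
  have hφ : ∀ x, φ (φ x) = x := by
    intro x
    refine Subtype.ext (Prod.ext ?_ rfl)
    change m + 1 - (m + 1 - x.1.1) = x.1.1
    have h1 := x.2.1
    omega
  refine ⟨{ toFun := fun x => OrderDual.toDual (φ x), invFun := fun x => φ (OrderDual.ofDual x),
            left_inv := fun x => hφ x, right_inv := fun x => hφ x, map_rel_iff' := ?_ }⟩
  intro x y
  change φ y ≤ φ x ↔ x ≤ y
  rw [le_iff, le_iff, hr, hr]
  have h1 := rk_le x
  have h2 := rk_le y
  constructor
  · rintro (h | h)
    · left
      rw [← hφ x, ← h, hφ]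
    · right
      omega
  · rintro (h | h)
    · left; rw [h]
    · right
      omega

end KK

open KK

variable {n : ℕ} {P : Type u} [PartialOrder P] [BoundedOrder P] {rk : P → ℕ}

theorem rank_transport (hP : IsPolytope n P rk) (hn : 4 ≤ n) {v F : P} (hvF : v ≤ F)
    (hv : rk v = 1) (hF : rk F = n) (φ : Icc v F ≃o KK (n - 2)) (x : P) (hx : x ∈ Icc v F) :
    rkK (φ ⟨x, hx⟩) = rk x - 1 := by
  classical
  have hch : IsChain (· ≤ ·) ({v, x, F} : Set P) := by
    rintro a ha b hb hab
    simp only [mem_insert_iff, mem_singleton_iff] at ha hb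
    rcases ha with rfl | rfl | rfl <;> rcases hb with rfl | rfl | rfl
    · exact absurd rfl hab
    · exact Or.inl hx.1
    · exact Or.inl hvF
    · exact Or.inr hx.1
    · exact absurd rfl hab
    · exact Or.inl hx.2
    · exact Or.inr hvF
    · exact Or.inr hx.2
    · exact absurd rfl hab
  obtain ⟨f, hf, hmem⟩ := exists_fl_chain hP hch
  have f1 : f 1 = v := by
    have := hmem v (by simp)
    rwa [hv] at this
  have f2 : f n = F := by
    have := hmem F (by simp)
    rwa [hF] at this
  have f3 : f (rk x) = x := hmem x (by simp)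
  have hrx1 : 1 ≤ rk x := by
    rw [← hv]
    exact hP.mono.monotone hx.1
  have hrx2 : rk x ≤ n := by
    rw [← hF]
    exact hP.mono.monotone hx.2
  have hIcc : ∀ k, 1 ≤ k → k ≤ n → f k ∈ Icc v F := by
    intro k h1 h2
    constructor
    · rw [← f1]; exact hf.mono' h1
    · rw [← f2]; exact hf.mono' h2
  obtain ⟨h, hh⟩ : ∃ h : ℕ → ℕ, ∀ k (hk : f k ∈ Icc v F), h k = rkK (φ ⟨f k, hk⟩) :=
    ⟨fun k => if hk : f k ∈ Icc v F then rkK (φ ⟨f k, hk⟩) else 0, fun k hk => dif_pos hk⟩
  have hstep : ∀ k, 1 ≤ k → k + 1 ≤ n → h k < h (k + 1) := by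
    intro k h1 h2
    rw [hh k (hIcc k h1 (by omega)), hh (k + 1) (hIcc _ (by omega) h2), ← KK.lt_iff,
      φ.lt_iff_lt]
    exact hf.lt k (by omega)
  have hlow : ∀ d, 1 + d ≤ n → d ≤ h (1 + d) := by
    intro d
    induction d with
    | zero => intro _; exact Nat.zero_le _
    | succ d ih =>
      intro hd
      have e1 := ih (by omega)
      have e2 := hstep (1 + d) (by omega) (by omega)
      rw [← add_assoc]
      omega
  have hup : ∀ d k, 1 ≤ k → k + d ≤ n → h k + d ≤ h (k + d) := by
    intro d k hk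
    induction d with
    | zero => intro _; exact le_rfl
    | succ d ih =>
      intro hd
      have e1 := ih (by omega)
      have e2 := hstep (k + d) (by omega) (by omega)
      rw [← add_assoc, ← add_assoc]
      omega
  have hn' : h n ≤ n - 1 := by
    rw [hh n (hIcc n (by omega) le_rfl)]
    have := KK.rk_le (φ ⟨f n, hIcc n (by omega) le_rfl⟩)
    omega
  have g1 := hlow (rk x - 1) (by omega)
  have g2 := hup (n - rk x) (rk x) hrx1 (by omega)
  have e1 : 1 + (rk x - 1) = rk x := by omega
  have e2 : rk x + (n - rk x) = n := by omega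
  rw [e1] at g1
  rw [e2] at g2
  have g3 : h (rk x) = rk x - 1 := by omega
  rw [← g3, hh _ (hIcc _ hrx1 hrx2)]
  congr 2
  exact Subtype.ext f3.symm

/-- in a medial section of an internally self-dual regular polytope of rank `n ≥ 4` some vertex
is not incident with some edge -/
theorem medial_not_two (hn : 4 ≤ n) (hP : IsPolytope n P rk) (hI : IntSelfDual n P rk) (v F : P)
    (hvF : v ≤ F) (hv : rk v = 1) (hF : rk F = n) :
    ∃ x y : P, x ∈ Icc v F ∧ y ∈ Icc v F ∧ rk x = 2 ∧ rk y = 3 ∧ ¬ x < y := by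
  by_contra hcon
  push Not at hcon
  obtain ⟨hreg, _, C, hC, ρ, hρ, α, hα⟩ := hI
  obtain ⟨Φ, hΦ, rfl⟩ := exists_fl hP hC
  have hch : IsChain (· ≤ ·) ({v, F} : Set P) := by
    rintro a ha b hb hab
    simp only [mem_insert_iff, mem_singleton_iff] at ha hb
    rcases ha with rfl | rfl <;> rcases hb with rfl | rfl
    · exact absurd rfl hab
    · exact Or.inl hvF
    · exact Or.inr hvF
    · exact absurd rfl hab
  obtain ⟨g, hg, hmem⟩ := exists_fl_chain hP hch
  have g1 : g 1 = v := by
    have := hmem v (by simp)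
    rwa [hv] at this
  have g2 : g n = F := by
    have := hmem F (by simp)
    rwa [hF] at this
  obtain ⟨ψ, hψ⟩ := hreg _ _ (fl_isMaxChain hP hΦ) (fl_isMaxChain hP hg)
  have hψk : ∀ k, k ≤ n + 1 → ψ (Φ k) = g k := by
    intro k hk
    have h1 : ψ (Φ k) ∈ range g := by
      rw [← hψ]
      exact mem_image_of_mem _ ⟨k, rfl⟩
    refine eq_of_chain hP (fl_isChain hg) h1 ⟨k, rfl⟩ ?_
    rw [rk_auto hP, hΦ.rk_eq hP hk, hg.rk_eq hP hk]
  have hK : ∀ x y : P, Φ 1 ≤ x → x ≤ Φ n → Φ 1 ≤ y → y ≤ Φ n → rk x = 2 → rk y = 3 → x < y := by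
    intro x y hx1 hx2 hy1 hy2 hx hy
    have mx : ψ x ∈ Icc v F := by
      constructor
      · rw [← g1, ← hψk 1 (by omega)]
        exact ψ.monotone hx1
      · rw [← g2, ← hψk n (by omega)]
        exact ψ.monotone hx2
    have my : ψ y ∈ Icc v F := by
      constructor
      · rw [← g1, ← hψk 1 (by omega)]
        exact ψ.monotone hy1
      · rw [← g2, ← hψk n (by omega)]
        exact ψ.monotone hy2
    have e3 : ψ x < ψ y := hcon (ψ x) (ψ y) mx my (by rw [rk_auto hP, hx])
      (by rw [rk_auto hP, hy])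
    exact ψ.lt_iff_lt.1 e3
  refine neg_core hn hP hΦ (fun i => ρ (i - 1)) ?_ hK α ?_
  · intro i hi hin
    obtain ⟨h1, h2⟩ := hρ (i - 1) (by omega)
    have hfl : Fl n (fun k => ρ (i - 1) (Φ k)) := hΦ.comp _
    have hne : ∀ k, k ≠ i → ρ (i - 1) (Φ k) = Φ k := by
      intro k hk
      by_cases hkn : k ≤ n + 1
      · have e1 : rk (ρ (i - 1) (Φ k)) = k := by rw [rk_auto hP, hΦ.rk_eq hP hkn]
        have e2 : ρ (i - 1) (Φ k) ∈ range Φ := by
          rw [← h2 _ (by rw [e1]; omega)]
          exact mem_image_of_mem _ ⟨k, rfl⟩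
        refine eq_of_chain hP (fl_isChain hΦ) e2 ⟨k, rfl⟩ ?_
        rw [e1, hΦ.rk_eq hP hkn]
      · rw [hΦ.top k (by omega), map_top]
    refine ⟨hne, fun heq => h1 ?_⟩
    have hall : ∀ k, ρ (i - 1) (Φ k) = Φ k := by
      intro k
      by_cases hk : k = i
      · rw [hk]; exact heq
      · exact hne k hk
    rw [← range_comp]
    congr 1
    ext1 k
    exact hall k
  · intro x
    have h1 := hα 0 (by omega)
    have h2 := DFunLike.congr_fun h1 x
    exact h2

/-- no medial section of an internally self-dual regular polytope of rank `n ≥ 4` is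
isomorphic to `{2, ..., 2}` -/
theorem no_medial (hn : 4 ≤ n) (hP : IsPolytope n P rk) (hI : IntSelfDual n P rk) (v F : P)
    (hvF : v ≤ F) (hv : rk v = 1) (hF : rk F = n) : IsEmpty (Icc v F ≃o KK (n - 2)) := by
  refine ⟨fun φ => ?_⟩
  obtain ⟨x, y, mx, my, hx, hy, hxy⟩ := medial_not_two hn hP hI v F hvF hv hF
  have e1 := rank_transport hP hn hvF hv hF φ x mx
  have e2 := rank_transport hP hn hvF hv hF φ y my
  rw [hx] at e1
  rw [hy] at e2
  have e3 : φ ⟨x, mx⟩ < φ ⟨y, my⟩ := by
    rw [KK.lt_iff, e1, e2]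
    omega
  rw [φ.lt_iff_lt] at e3
  exact hxy e3

end Pool.Agent.R231.MS
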