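import Pool.Agent.R231.MS.Basic

/-!
# No internally self-dual regular polytope has a medial section of type {2, ..., 2}
-/

set_option autoImplicit false

open Set

namespace Pool.Agent.R231.MS

universe u

variable {n : ℕ} {P : Type u} [PartialOrder P] [BoundedOrder P] {rk : P → ℕ}

/-- two generators commute if the two changes of the base flag are compatible -/
theorem comm_of (hP : IsPolytope n P rk) {Φ : ℕ → P} (hΦ : Fl n Φ) {i j : ℕ} (hi : 1 ≤ i)
    (hin : i ≤ n) (hj : 1 ≤ j) (hjn : j ≤ n) (hij : i ≠ j) {r s : P ≃o P}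
    (hr : AdjF i Φ (fun k => r (Φ k))) (hs : AdjF j Φ (fun k => s (Φ k)))
    (hfl : Fl n (Function.update (fun k => r (Φ k)) j (s (Φ j)))) (x : P) :
    r (s x) = s (r x) := by
  obtain ⟨g, hg⟩ : ∃ g, g = Function.update (fun k => r (Φ k)) j (s (Φ j)) := ⟨_, rfl⟩
  rw [← hg] at hfl
  have hgj : g j = s (Φ j) := by rw [hg, Function.update_self]
  have hgk : ∀ k, k ≠ j → g k = r (Φ k) := fun k hk => by rw [hg, Function.update_of_ne hk]
  -- g is i-adjacent to sΦ
  have a1 : AdjF i (fun k => s (Φ k)) g := by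
    refine ⟨fun k hk => ?_, ?_⟩
    · by_cases hkj : k = j
      · rw [hkj, hgj]
      · rw [hgk k hkj]
        have e1 := hr.1 k hk
        have e2 := hs.1 k hkj
        simp only at e1 e2
        rw [e1]
        exact e2.symm
    · rw [hgk i hij]
      have e2 := hs.1 i hij
      simp only at e2
      change r (Φ i) ≠ s (Φ i)
      rw [e2]
      exact hr.2
  -- g is j-adjacent to rΦ
  have a2 : AdjF j (fun k => r (Φ k)) g := by
    refine ⟨fun k hk => hgk k hk, ?_⟩
    rw [hgj]
    have e1 := hr.1 j hij.symm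
    simp only at e1
    change s (Φ j) ≠ r (Φ j)
    rw [e1]
    exact hs.2
  have b1 := adj_unique hP (hΦ.comp s) hfl ((hΦ.comp r).comp s) hi hin a1 (hr.comp s)
  have b2 := adj_unique hP (hΦ.comp r) hfl ((hΦ.comp s).comp r) hj hjn a2 (hs.comp r)
  have c1 : ∀ k, r (s (Φ k)) = s (r (Φ k)) := fun k => by
    have := congrFun (b2.symm.trans b1) k
    exact this
  have c2 := rigid hP hΦ ((s.trans r).trans (r.trans s).symm) (fun k => by
    change (r.trans s).symm (r (s (Φ k))) = Φ k
    rw [OrderIso.symm_apply_eq]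
    exact c1 k) x
  change (r.trans s).symm (r (s x)) = x at c2
  rw [OrderIso.symm_apply_eq] at c2
  exact c2

/-- the main negative result, in terms of flag functions -/
theorem neg_core (hn : 4 ≤ n) (hP : IsPolytope n P rk) {Φ : ℕ → P} (hΦ : Fl n Φ)
    (r : ℕ → (P ≃o P)) (hr : ∀ i, 1 ≤ i → i ≤ n → AdjF i Φ (fun k => r i (Φ k)))
    (hK : ∀ x y : P, Φ 1 ≤ x → x ≤ Φ n → Φ 1 ≤ y → y ≤ Φ n → rk x = 2 → rk y = 3 → x < y)
    (α : P ≃o P) (hα : ∀ x, α (r 1 x) = r n (α x)) : False := by
  have hflr : ∀ i, Fl n (fun k => r i (Φ k)) := fun i => hΦ.comp (r i)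
  -- distant generators commute
  have hfar : ∀ i j, 1 ≤ i → i ≤ n → 1 ≤ j → j ≤ n → i + 2 ≤ j → ∀ x, r i (r j x) = r j (r i x) := by
    intro i j hi hin hj hjn hij x
    refine comm_of hP hΦ hi hin hj hjn (by omega) (hr i hi hin) (hr j hj hjn) ?_ x
    refine (hflr i).upd hj hjn ?_ ?_
    · have e1 := (hr i hi hin).1 (j - 1) (by omega)
      have e2 := (hr j hj hjn).1 (j - 1) (by omega)
      simp only at e1 e2
      change r i (Φ (j - 1)) < r j (Φ j)
      rw [e1, ← e2]
      exact (hflr j).strict (by omega) (by omega)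
    · have e1 := (hr i hi hin).1 (j + 1) (by omega)
      have e2 := (hr j hj hjn).1 (j + 1) (by omega)
      simp only at e1 e2
      change r j (Φ j) < r i (Φ (j + 1))
      rw [e1, ← e2]
      exact (hflr j).strict (by omega) (by omega)
  -- the generators 2 and 3 commute
  have h23 : ∀ x, r 2 (r 3 x) = r 3 (r 2 x) := by
    intro x
    have hr2 := hr 2 (by omega) (by omega)
    have hr3 := hr 3 (by omega) (by omega)
    refine comm_of hP hΦ (by omega) (by omega) (by omega) (by omega) (by omega) hr2 hr3 ?_ x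
    refine (hflr 2).upd (by omega) (by omega) ?_ ?_
    · change r 2 (Φ 2) < r 3 (Φ 3)
      have f1 : r 2 (Φ 1) = Φ 1 := hr2.1 1 (by omega)
      have f3 : r 2 (Φ 3) = Φ 3 := hr2.1 3 (by omega)
      have g1 : r 3 (Φ 1) = Φ 1 := hr3.1 1 (by omega)
      have g4 : r 3 (Φ 4) = Φ 4 := hr3.1 4 (by omega)
      refine hK _ _ ?_ ?_ ?_ ?_ ?_ ?_
      · rw [← f1]
        exact ((hflr 2).strict (show 1 < 2 by omega) (by omega)).le
      · refine le_trans ?_ (hΦ.mono' (show 3 ≤ n by omega))
        rw [← f3]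
        exact ((hflr 2).strict (show 2 < 3 by omega) (by omega)).le
      · rw [← g1]
        exact ((hflr 3).strict (show 1 < 3 by omega) (by omega)).le
      · refine le_trans ?_ (hΦ.mono' (show 4 ≤ n by omega))
        rw [← g4]
        exact ((hflr 3).strict (show 3 < 4 by omega) (by omega)).le
      · rw [rk_auto hP, hΦ.rk_eq hP (by omega)]
      · rw [rk_auto hP, hΦ.rk_eq hP (by omega)]
    · change r 3 (Φ 3) < r 2 (Φ 4)
      have f4 : r 2 (Φ 4) = Φ 4 := hr2.1 4 (by omega)
      have g4 : r 3 (Φ 4) = Φ 4 := hr3.1 4 (by omega)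
      rw [f4, ← g4]
      exact (hflr 3).strict (show 3 < 4 by omega) (by omega)
  -- splitting of the group
  have key : ∀ g : ℕ → P, Relation.ReflTransGen (Step n) Φ g → ∃ a b : P ≃o P,
      a (Φ n) = Φ n ∧ (∀ x, b (r 1 x) = r 1 (b x)) ∧ (∀ x, b (r 2 x) = r 2 (b x)) ∧
      ∀ k, g k = a (b (Φ k)) := by
    intro g hg
    induction hg with
    | refl => exact ⟨OrderIso.refl P, OrderIso.refl P, rfl, fun _ => rfl, fun _ => rfl, fun _ => rfl⟩
    | @tail g g' _ hstep ih =>
      obtain ⟨hgf, hgf', i, hi, hin, hadj⟩ := hstep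
      obtain ⟨a, b, ha, hb1, hb2, hab⟩ := ih
      have e1 : g = fun k => a (b (Φ k)) := funext hab
      have e2 : AdjF i g (fun k => a (b (r i (Φ k)))) := by
        rw [e1]
        exact ((hr i hi hin).comp b).comp a
      have e3 := adj_unique hP hgf hgf' (((hflr i).comp b).comp a) hi hin hadj e2
      by_cases hi2 : i ≤ 2
      · refine ⟨(r i).trans a, b, ?_, hb1, hb2, ?_⟩
        · change a (r i (Φ n)) = Φ n
          have : r i (Φ n) = Φ n := (hr i hi hin).1 n (by omega)
          rw [this, ha]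
        · intro k
          rw [e3]
          change a (b (r i (Φ k))) = a (r i (b (Φ k)))
          have : i = 1 ∨ i = 2 := by omega
          rcases this with rfl | rfl
          · rw [hb1]
          · rw [hb2]
      · refine ⟨a, (r i).trans b, ha, ?_, ?_, ?_⟩
        · intro x
          change b (r i (r 1 x)) = r 1 (b (r i x))
          rw [← hfar 1 i le_rfl (by omega) hi hin (by omega), hb1]
        · intro x
          change b (r i (r 2 x)) = r 2 (b (r i x))
          by_cases hi3 : i = 3
          · subst hi3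
            rw [← h23, hb2]
          · rw [← hfar 2 i (by omega) (by omega) hi hin (by omega), hb2]
        · intro k
          rw [e3]
          rfl
  obtain ⟨a, b, ha, hb1, _, hab⟩ := key _ (flag_conn hP hΦ (hΦ.comp α))
  -- α = a b
  have hαab : ∀ x, α x = a (b x) := by
    intro x
    have := rigid hP hΦ ((b.trans a).trans α.symm) (fun k => by
      change α.symm (a (b (Φ k))) = Φ k
      rw [← hab k, OrderIso.symm_apply_apply]) x
    change α.symm (a (b x)) = x at this
    rw [OrderIso.symm_apply_eq] at this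
    exact this.symm
  -- evaluate at b⁻¹ (Φ n)
  have h1 := hα (b.symm (Φ n))
  rw [hαab, hαab, hb1, OrderIso.apply_symm_apply, ha] at h1
  have h2 : r 1 (Φ n) = Φ n := (hr 1 le_rfl (by omega)).1 n (by omega)
  rw [h2, ha] at h1
  exact (hr n (by omega) le_rfl).2 h1.symm

end Pool.Agent.R231.MS
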